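import Pool.Agent.Q7.CE.All3
import Pool.Agent.Q7.LK.Uni

/-!
# The `3`-adic closure of the rational points of cubic twists over every number field containing the third roots of unity

Let `F` be any number field which contains a primitive third root of unity. The curves `E_D : y² + D y = x³`, `D ∈ F^*`, are the
cubic twists over `F` of `y² + y = x³`. Prescribe `D` up to cubes in the completions at all places above the prime numbers
`≤ y` (it is equal to `D₀` there), and the orders `z_i ≠ 0` modulo `3` of `D` at `k` further primes `q_0, …, q_(k-1)`, of norms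
`≤ X_0, …, X_(k-1)` (the order is divisible by `3` at all other primes), for large `k`, `X_0`, then `X_1` large in terms of
`X_0`, and so on. Let `S` be a set of places of `F` above `3`, and let `N` be one half of the sum of the local degrees
`[F_v : ℚ_3]`, `v ∈ S`.

Theorem. For at least the share `1 - 3^(-N) / 2 - ε` of the twists of each of these families, the points of `E_D(F)` which are
independent over `ℤ` are independent over `ℤ_3` in the product of the `E_D(F_v)`, `v ∈ S`. (So the closure in this product of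
every subgroup `L` of `E_D(F)` has the `ℤ_3`-rank of `L`.)

If `S` consists of all places above `3`, then the product is `A(ℚ_3)` for the restriction of scalars `A` of `E_D` to `ℚ`, of
dimension `[F : ℚ] = 2 N`.

Proof. A relation over `ℤ_3` gives a point `Q` of `E_D(F)` which is, up to torsion, in the image of `1 - ω` over `F_v` for all `v ∈ S`, but
not over `F` (a saturated submodule of a free module over `ℤ_3` with an endomorphism `θ`, `θ² = 3` up to a unit). The class of `Q` in
`F^*` modulo cubes and powers of `D` is not trivial, the diagonal cubic of `HalfOfTheCubicTwists` (MP_78d38b_nt) has points over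
all completions for it, and at the places of `S` it is one of the classes of the torsion points of `E_D(F_v)`, of which there are at most
`3`, instead of `3^(1 + [F_v : ℚ_3]/2)`. By the first moment (cubic reciprocity over `F`, Chebotarev's theorem) the mean of the
number of these classes is at most `3^(∑_(v ∉ S) [F_v : ℚ_3]/2 - r) = 3^(-N)`, `r` the number of the complex places of `F`.

The parts were proved together with helpers 14, 22, 53, 65, 123, 129, 150, 153, 162, 190, 224, 241, 251, 262, 265, 275, 277 and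
285.
-/

set_option autoImplicit false

namespace Pool.Agent.Results.MP_52423f_nt.PointsOfCubicTwists

open NumberField IsDedekindDomain Filter Topology WeierstrassCurve
open Pool.Agent.TH841.SH.D (Pt act)

/-- The curve `E_D : y² + D y = x³`. -/
def curve {F : Type} [Field F] (D : F) : WeierstrassCurve F := ⟨0, 0, D, 0, 0⟩

section Ensemble

variable {F : Type} [Field F] [NumberField F]

/-- The group homomorphism from `E_D(F)` to `E_D(F_v)`. -/
noncomputable def toCompletion (D : F) (v : HeightOneSpectrum (𝓞 F)) :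
    Pt (curve D) F →+ Pt (curve D) (v.adicCompletion F) :=
  act (curve D) (Algebra.ofId F (v.adicCompletion F))

/-- Points `P i` of `E_D(F)` which are independent over `ℤ` (no nontrivial integral combination is a torsion point) are
independent over `ℤ_3` in the product of the `E_D(F_v)`, `v ∈ S`: if `∑ a_i P_i = 0` with `a_i ∈ ℤ_3` for all `v ∈ S`, that is, for
all `n` some combination `∑ m_i P_i` with integers `m_i ≡ a_i` modulo `3 ^ n` is divisible by `3 ^ n` in `E_D(F_v)`, then
`a = 0`. -/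
def Independence (S : Set (HeightOneSpectrum (𝓞 F))) (D : F) : Prop :=
  ∀ (r : ℕ) (P : Fin r → Pt (curve D) F), (∀ c : Fin r → ℤ, IsOfFinAddOrder (∑ i, c i • P i) → c = 0) →
    ∀ a : Fin r → ℤ_[3],
      (∀ v ∈ S, ∀ n : ℕ, ∃ m : Fin r → ℤ, (∀ i, (3 : ℤ_[3]) ^ n ∣ (m i : ℤ_[3]) - a i) ∧
        ∃ R : Pt (curve D) (v.adicCompletion F), ∑ i, m i • toCompletion D v (P i) = (3 ^ n : ℕ) • R) →
      a = 0

/-- The degree of the completion of `F` at `v` over `ℚ_l`, `v` above the prime number `l`. -/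
noncomputable def localDegree (v : HeightOneSpectrum (𝓞 F)) : ℕ :=
  v.asIdeal.ramificationIdx ℤ * v.asIdeal.inertiaDeg ℤ

/-- One half of the sum of the local degrees (which are even for the places above `3`). -/
noncomputable def halfDegree (S : Set (HeightOneSpectrum (𝓞 F))) : ℕ :=
  ∑ᶠ v ∈ S, localDegree v / 2

/-- The order of `a` at `v` modulo `3`. -/
noncomputable def orderMod (v : HeightOneSpectrum (𝓞 F)) (a : F) : ZMod 3 :=
  -((WithZero.log (v.valuation F a) : ℤ) : ZMod 3)

/-- `a` is the cube of a nonzero element of the completion of `F` at `v`. -/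
def CubeAt (v : HeightOneSpectrum (𝓞 F)) (a : F) : Prop :=
  a ≠ 0 ∧ ∃ s : v.adicCompletion F, (a : v.adicCompletion F) = s ^ 3

/-- `v` lies above a prime number `l ≤ y`. -/
def Small (y : ℕ) (v : HeightOneSpectrum (𝓞 F)) : Prop :=
  ∃ l : ℕ, l.Prime ∧ l ≤ y ∧ (l : 𝓞 F) ∈ v.asIdeal

open Classical in
/-- Among the primes not above prime numbers `≤ y` the order of `D` modulo `3` is `z i` at the prime `q i` and `0` at the
others; and at the primes above prime numbers `≤ y` the number `D` is equal to `D₀` up to local cubes. -/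
structure Fits (y : ℕ) (D₀ : F) {k : ℕ} (z : Fin k → ZMod 3) (q : Fin k → HeightOneSpectrum (𝓞 F)) (D : F) :
    Prop where
  ne : D ≠ 0
  ram : ∀ v : HeightOneSpectrum (𝓞 F), ¬ Small y v → orderMod v D = ∑ i, if q i = v then z i else 0
  loc : ∀ v : HeightOneSpectrum (𝓞 F), Small y v → CubeAt v (D / D₀)

/-- The ensemble: the tuples of `k` different primes `q i`, not above prime numbers `≤ y`, of norm `≤ X i`, to which a
`D` belongs. -/
def Ensemble (y : ℕ) (D₀ : F) {k : ℕ} (z : Fin k → ZMod 3) (X : Fin k → ℕ) : Set (Fin k → HeightOneSpectrum (𝓞 F)) :=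
  {q | (Function.Injective q ∧ ∀ i, ¬ Small y (q i) ∧ Ideal.absNorm (q i).asIdeal ≤ X i) ∧
    ∃ D, Fits y D₀ z q D}

end Ensemble

/-- `P X` is true for all large `X 0`, for all `X 1` which are large in terms of `X 0`, …, for all `X (k-1)` which are
large in terms of the others. -/
def Nested : (k : ℕ) → ((Fin k → ℕ) → Prop) → Prop
  | 0, P => P Fin.elim0
  | k + 1, P => Nested k fun X => ∀ᶠ x : ℕ in atTop, P (Fin.snoc (α := fun _ => ℕ) X x)

section Proof

theorem nested_iff : ∀ (k : ℕ) (P : (Fin k → ℕ) → Prop), Nested k P ↔ Q283.LQ.Nest k P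
  | 0, _ => Iff.rfl
  | k + 1, _ => nested_iff k _

variable {F : Type} [Field F] [NumberField F]

theorem fits_iff {y : ℕ} {D₀ : F} {k : ℕ} {z : Fin k → ZMod 3}
    {q : Fin k → HeightOneSpectrum (𝓞 F)} {D : F} : Fits y D₀ z q D ↔ Q7.LK.Fits 3 y D₀ z q D := by
  constructor
  · intro h
    exact ⟨h.ne, h.ram, fun v hv => (Q7.LK.t_CPL 3 F v _).mpr (h.loc v hv)⟩
  · intro h
    exact ⟨h.ne, h.ram, fun v hv => (Q7.LK.t_CPL 3 F v _).mp (h.loc v hv)⟩

theorem half_eq (S : Set (HeightOneSpectrum (𝓞 F))) (hS : ∀ v ∈ S, (3 : 𝓞 F) ∈ v.asIdeal) :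
    halfDegree S = Q7.CE.hS S := by
  classical
  unfold halfDegree Q7.CE.hS
  refine finsum_congr fun v => ?_
  rw [finsum_eq_if]
  by_cases h : v ∈ S
  · rw [if_pos h, if_pos h]
    unfold localDegree Q7.LK.dv
    rw [if_pos (show Q7.LK.Dp 3 v by
      unfold Q7.LK.Dp
      exact_mod_cast hS v h)]
  · rw [if_neg h, if_neg h]

end Proof

/-- **Main result.** -/
theorem result (F : Type) [Field F] [NumberField F] (ω : F) (hω : IsPrimitiveRoot ω 3) :
    ∃ y₀ : ℕ, ∀ y, y₀ ≤ y → ∀ D₀ : F, D₀ ≠ 0 →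
      (∀ (k : ℕ) (z : Fin k → ZMod 3) (q : Fin k → HeightOneSpectrum (𝓞 F)) (D D' : F),
        Fits y D₀ z q D → Fits y D₀ z q D' → ∃ x : F, D = D' * x ^ 3) ∧
      ∀ S : Set (HeightOneSpectrum (𝓞 F)), (∀ v ∈ S, (3 : 𝓞 F) ∈ v.asIdeal) →
      ∀ ε : ℝ, 0 < ε → ∃ k₀ : ℕ, ∀ k, k₀ ≤ k → ∀ z : Fin k → ZMod 3, (∀ i, z i ≠ 0) → Nested k fun X =>
        (Ensemble y D₀ z X).Finite ∧ (Ensemble y D₀ z X).Nonempty ∧
        (1 - (1 / 3) ^ halfDegree S / 2 - ε) * (Ensemble y D₀ z X).ncard ≤
          ({q ∈ Ensemble y D₀ z X | ∀ D, Fits y D₀ z q D → Independence S D}.ncard : ℝ) := by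
  obtain ⟨y1, hy1⟩ := Q7.CE.t_FMAIN F ω hω
  obtain ⟨y2, hy2⟩ := Q7.LK.uniq Q7.LK.t_BAS Q7.LK.t_BASE 3 (by norm_num) F ω hω
  refine ⟨max y1 y2, fun y hy D₀ hD₀ => ⟨fun k z q D D' hD hD' => ?_, fun S hS ε hε => ?_⟩⟩
  · obtain ⟨x, hx⟩ := hy2 y (le_trans (le_max_right _ _) hy) D₀ hD₀ k z q D D' (fits_iff.mp hD) (fits_iff.mp hD')
    refine ⟨x, ?_⟩
    rw [← hx, mul_div_cancel₀ _ hD'.ne]
  obtain ⟨k0, hk0⟩ := hy1 y (le_trans (le_max_left _ _) hy) D₀ hD₀ S (fun v hv => by
    unfold Q7.LK.Dp
    exact_mod_cast hS v hv) ε hε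
  refine ⟨k0, fun k hk z hz => (nested_iff k _).mpr (Q7.LK.nest_mono k _ _ (fun X hX => ?_) (hk0 k hk z hz))⟩
  obtain ⟨hfin, hpos, hN⟩ := hX
  have hE : Ensemble y D₀ z X =
      {q ∈ (Q283.LQ.Box y X : Set (Fin k → HeightOneSpectrum (𝓞 F))) | ∃ D, Q7.LK.Fits 3 y D₀ z q D} := by
    ext q
    simp only [Ensemble, Q283.LQ.Box, Set.mem_ofPred_eq, fits_iff]
    rfl
  have hEfin : (Ensemble y D₀ z X).Finite := by
    rw [hE]
    exact hfin.subset (fun q hq => hq.1)
  rw [← hE, ← half_eq S hS] at hN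
  rw [← hE] at hpos
  refine ⟨hEfin, ?_, le_trans hN ?_⟩
  · rw [← Set.ncard_pos hEfin]
    exact_mod_cast hpos
  · have h2 : {q ∈ (Q283.LQ.Box y X : Set (Fin k → HeightOneSpectrum (𝓞 F))) |
          (∃ D, Q7.LK.Fits 3 y D₀ z q D) ∧ ∀ D, Q7.LK.Fits 3 y D₀ z q D → Q7.CE.Indep S D} ⊆
        {q ∈ Ensemble y D₀ z X | ∀ D, Fits y D₀ z q D → Independence S D} := by
      rintro q ⟨hq, hd, h⟩
      refine ⟨?_, fun D hf => h D (fits_iff.mp hf)⟩
      rw [hE]
      exact ⟨hq, hd⟩
    exact_mod_cast Set.ncard_le_ncard h2 (hEfin.subset (fun q hq => hq.1))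

end Pool.Agent.Results.MP_52423f_nt.PointsOfCubicTwists
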