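import Pool.Agent.Q7.CF.All
import Pool.Agent.Q7.CF.Short
import Pool.Agent.Q7.LK.Uni

/-!
# The `p`-adic closure of the rational points of the Jacobians of Fermat quotients over number fields containing the `p`-th roots
# of unity

Let `p ≥ 5` be a prime, `1 ≤ r ≤ p - 2`, and let `F` be any number field which contains a primitive `p`-th root of unity. For
`D ∈ F^*` let `J_D` be the Jacobian, of dimension `(p - 1)/2`, of the curve `v^p = u (D - u)^r`, the quotient of the twisted Fermat
curve `X^p + Y^p = D` given by `u = X^p`, `v = X Y^r`. (For `p = 3` it is the elliptic curve `y² + D y = x³`: see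
`PointsOfCubicTwists`.) Prescribe `D` up to `p`-th powers in the completions at all places above the prime numbers `≤ y` (it is equal
to `D₀` there), and the orders `z_i ≠ 0` modulo `p` of `D` at `k` further primes `q_0, …, q_(k-1)`, of norms `≤ X_0, …, X_(k-1)`
(the order is divisible by `p` at all other primes), for large `k`, `X_0`, then `X_1` large in terms of `X_0`, and so on. Let `S` be
a set of places of `F` above `p`, and let `N` be one half of the sum of the local degrees `[F_v : ℚ_p]`, `v ∈ S`.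

Theorem. For at least the share `1 - p^(-N) / (p - 1) - ε` of the `D` of each of these families, the points of `J_D(F)` which are
independent over `ℤ` are independent over `ℤ_p` in the product of the `J_D(F_v)`, `v ∈ S`, if `J_D(F)` is finitely generated
(theorem of Mordell and Weil). (So the closure in this product of every subgroup `L` of `J_D(F)` has the `ℤ_p`-rank of `L`.)

If `S` consists of all places above `p`, then the product is `A(ℚ_p)` for the restriction of scalars `A` of `J_D` to `ℚ`, of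
dimension `[F : ℚ] (p - 1)/2`, `N = [F : ℚ]/2`.

Proof. A relation over `ℤ_p` gives a point `Q` of `J_D(F)` which is, up to torsion, in the image of `1 - ζ` over `F_v` for all
`v ∈ S`, but not over `F` (a saturated submodule of a free module over `ℤ_p` with an endomorphism `θ`, `θ^(p-1) = p` up to a unit).
The class of `Q` in `F^*` modulo `p`-th powers and powers of `D` (see `FermatQuotientJacobians`, MP_dfae13_nt) is not trivial, it
satisfies all local conditions, and at the places of `S` it is one of the classes of the torsion points of `J_D(F_v)`, of which there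
are at most `p`, instead of `p^(1 + [F_v : ℚ_p]/2)`. By the first moment (reciprocity over `F`, Chebotarev's theorem) the mean of the
number of these classes is at most `p^(∑_(v ∉ S) [F_v : ℚ_p]/2 - r₂) = p^(-N)`, `r₂` the number of the complex places of `F`.

The parts were proved together with helpers 13, 14, 38, 53, 65, 79, 123, 150, 151, 153, 162, 164, 182, 190, 198, 205, 211, 214,
222, 223, 224, 238, 259, 262, 265, 275, 277, 285 and 299.
-/

set_option autoImplicit false

namespace Pool.Agent.Results.MP_52423f_nt.PointsOfFermatQuotients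

open NumberField IsDedekindDomain Filter Topology
open Pool.Agent.Q7.CF (Ok Jac)

section Ensemble

variable {F : Type} [Field F] [NumberField F]

/-- The group homomorphism from `J(F)` to `J(F_v)`, `J` the Jacobian of `v^p = u (D - u)^r`. -/
noncomputable def toCompletion (p r : ℕ) [Fact p.Prime] [Ok p r] (D : F) (v : HeightOneSpectrum (𝓞 F)) (P : Jac p r D F) :
    Jac p r D (v.adicCompletion F) :=
  Jac.push p r D (Algebra.ofId F (v.adicCompletion F)) P

/-- Points `P i` of `J(F)` which are independent over `ℤ` (no nontrivial integral combination is a torsion point) are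
independent over `ℤ_p` in the product of the `J(F_v)`, `v ∈ S`: if `∑ a_i P_i = 0` with `a_i ∈ ℤ_p` for all `v ∈ S`, that is, for
all `n` some combination `∑ m_i P_i` with integers `m_i ≡ a_i` modulo `p ^ n` is divisible by `p ^ n` in `J(F_v)`, then
`a = 0`. -/
def Independence (p r : ℕ) [Fact p.Prime] [Ok p r] (S : Set (HeightOneSpectrum (𝓞 F))) (D : F) : Prop :=
  ∀ (t : ℕ) (P : Fin t → Jac p r D F), (∀ c : Fin t → ℤ, IsOfFinAddOrder (∑ i, c i • P i) → c = 0) →
    ∀ a : Fin t → ℤ_[p],
      (∀ v ∈ S, ∀ n : ℕ, ∃ m : Fin t → ℤ, (∀ i, (p : ℤ_[p]) ^ n ∣ (m i : ℤ_[p]) - a i) ∧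
        ∃ R : Jac p r D (v.adicCompletion F), ∑ i, m i • toCompletion p r D v (P i) = (p ^ n : ℕ) • R) →
      a = 0

/-- The degree of the completion of `F` at `v` over `ℚ_l`, `v` above the prime number `l`. -/
noncomputable def localDegree (v : HeightOneSpectrum (𝓞 F)) : ℕ :=
  v.asIdeal.ramificationIdx ℤ * v.asIdeal.inertiaDeg ℤ

/-- One half of the sum of the local degrees (which are even for the places above `p`). -/
noncomputable def halfDegree (S : Set (HeightOneSpectrum (𝓞 F))) : ℕ :=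
  ∑ᶠ v ∈ S, localDegree v / 2

/-- The order of `a` at `v` modulo `p`. -/
noncomputable def orderMod (p : ℕ) (v : HeightOneSpectrum (𝓞 F)) (a : F) : ZMod p :=
  -((WithZero.log (v.valuation F a) : ℤ) : ZMod p)

/-- `a` is the `p`-th power of a nonzero element of the completion of `F` at `v`. -/
def PowerAt (p : ℕ) (v : HeightOneSpectrum (𝓞 F)) (a : F) : Prop :=
  a ≠ 0 ∧ ∃ s : v.adicCompletion F, (a : v.adicCompletion F) = s ^ p

/-- `v` lies above a prime number `l ≤ y`. -/
def Small (y : ℕ) (v : HeightOneSpectrum (𝓞 F)) : Prop :=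
  ∃ l : ℕ, l.Prime ∧ l ≤ y ∧ (l : 𝓞 F) ∈ v.asIdeal

open Classical in
/-- Among the primes not above prime numbers `≤ y` the order of `D` modulo `p` is `z i` at the prime `q i` and `0` at the
others; and at the primes above prime numbers `≤ y` the number `D` is equal to `D₀` up to local `p`-th powers. -/
structure Fits (p y : ℕ) (D₀ : F) {k : ℕ} (z : Fin k → ZMod p) (q : Fin k → HeightOneSpectrum (𝓞 F)) (D : F) :
    Prop where
  ne : D ≠ 0
  ram : ∀ v : HeightOneSpectrum (𝓞 F), ¬ Small y v → orderMod p v D = ∑ i, if q i = v then z i else 0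
  loc : ∀ v : HeightOneSpectrum (𝓞 F), Small y v → PowerAt p v (D / D₀)

/-- The ensemble: the tuples of `k` different primes `q i`, not above prime numbers `≤ y`, of norm `≤ X i`, to which a
`D` belongs. -/
def Ensemble (p y : ℕ) (D₀ : F) {k : ℕ} (z : Fin k → ZMod p) (X : Fin k → ℕ) : Set (Fin k → HeightOneSpectrum (𝓞 F)) :=
  {q | (Function.Injective q ∧ ∀ i, ¬ Small y (q i) ∧ Ideal.absNorm (q i).asIdeal ≤ X i) ∧
    ∃ D, Fits p y D₀ z q D}

end Ensemble

/-- `P X` is true for all large `X 0`, for all `X 1` which are large in terms of `X 0`, …, for all `X (k-1)` which are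
large in terms of the others. -/
def Nested : (k : ℕ) → ((Fin k → ℕ) → Prop) → Prop
  | 0, P => P Fin.elim0
  | k + 1, P => Nested k fun X => ∀ᶠ x : ℕ in atTop, P (Fin.snoc (α := fun _ => ℕ) X x)

section Proof

theorem nested_iff : ∀ (k : ℕ) (P : (Fin k → ℕ) → Prop), Nested k P ↔ Q283.LQ.Nest k P
  | 0, _ => Iff.rfl
  | k + 1, _ => nested_iff k _

variable {F : Type} [Field F] [NumberField F]

theorem fits_iff {p y : ℕ} [Fact p.Prime] {D₀ : F} {k : ℕ} {z : Fin k → ZMod p}
    {q : Fin k → HeightOneSpectrum (𝓞 F)} {D : F} : Fits p y D₀ z q D ↔ Q7.LK.Fits p y D₀ z q D := by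
  constructor
  · intro h
    exact ⟨h.ne, h.ram, fun v hv => (Q7.LK.t_CPL p F v _).mpr (h.loc v hv)⟩
  · intro h
    exact ⟨h.ne, h.ram, fun v hv => (Q7.LK.t_CPL p F v _).mp (h.loc v hv)⟩

theorem half_eq (p : ℕ) (S : Set (HeightOneSpectrum (𝓞 F))) (hS : ∀ v ∈ S, (p : 𝓞 F) ∈ v.asIdeal) :
    halfDegree S = Q7.CF.hS p S := by
  classical
  unfold halfDegree Q7.CF.hS
  refine finsum_congr fun v => ?_
  rw [finsum_eq_if]
  by_cases h : v ∈ S
  · rw [if_pos h, if_pos h]
    unfold localDegree Q7.LK.dv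
    rw [if_pos (show Q7.LK.Dp p v from hS v h)]
  · rw [if_neg h, if_neg h]

end Proof

/-- **Main result.** -/
theorem result (p r : ℕ) [Fact p.Prime] [Ok p r] (hp : 5 ≤ p) (F : Type) [Field F] [NumberField F] (ζ : F)
    (hζ : IsPrimitiveRoot ζ p) :
    ∃ y₀ : ℕ, ∀ y, y₀ ≤ y → ∀ D₀ : F, D₀ ≠ 0 →
      (∀ (k : ℕ) (z : Fin k → ZMod p) (q : Fin k → HeightOneSpectrum (𝓞 F)) (D D' : F),
        Fits p y D₀ z q D → Fits p y D₀ z q D' → ∃ x : F, D = D' * x ^ p) ∧
      ∀ S : Set (HeightOneSpectrum (𝓞 F)), (∀ v ∈ S, (p : 𝓞 F) ∈ v.asIdeal) →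
      ∀ ε : ℝ, 0 < ε → ∃ k₀ : ℕ, ∀ k, k₀ ≤ k → ∀ z : Fin k → ZMod p, (∀ i, z i ≠ 0) → Nested k fun X =>
        (Ensemble p y D₀ z X).Finite ∧ (Ensemble p y D₀ z X).Nonempty ∧
        (1 - (1 / (p : ℝ)) ^ halfDegree S / ((p : ℝ) - 1) - ε) * (Ensemble p y D₀ z X).ncard ≤
          ({q ∈ Ensemble p y D₀ z X | ∀ D, Fits p y D₀ z q D →
            AddGroup.FG (Jac p r D F) → Independence p r S D}.ncard : ℝ) := by
  obtain ⟨y1, hy1⟩ := Q7.CF.t_MAIN5 p r F ζ hζ
  obtain ⟨y2, hy2⟩ := Q7.LK.uniq Q7.LK.t_BAS Q7.LK.t_BASE p (by omega) F ζ hζ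
  refine ⟨max y1 y2, fun y hy D₀ hD₀ => ⟨fun k z q D D' hD hD' => ?_, fun S hS ε hε => ?_⟩⟩
  · obtain ⟨x, hx⟩ := hy2 y (le_trans (le_max_right _ _) hy) D₀ hD₀ k z q D D' (fits_iff.mp hD) (fits_iff.mp hD')
    refine ⟨x, ?_⟩
    rw [← hx, mul_div_cancel₀ _ hD'.ne]
  obtain ⟨k0, hk0⟩ := hy1 y (le_trans (le_max_left _ _) hy) D₀ hD₀ S hS ε hε
  refine ⟨k0, fun k hk z hz => (nested_iff k _).mpr (Q7.LK.nest_mono k _ _ (fun X hX => ?_) (hk0 k hk z hz))⟩
  obtain ⟨hfin, hpos, hN⟩ := hX
  have hE : Ensemble p y D₀ z X =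
      {q ∈ (Q283.LQ.Box y X : Set (Fin k → HeightOneSpectrum (𝓞 F))) | ∃ D, Q7.LK.Fits p y D₀ z q D} := by
    ext q
    simp only [Ensemble, Q283.LQ.Box, Set.mem_ofPred_eq, fits_iff]
    rfl
  have hEfin : (Ensemble p y D₀ z X).Finite := by
    rw [hE]
    exact hfin.subset (fun q hq => hq.1)
  rw [← hE, ← half_eq p S hS] at hN
  rw [← hE] at hpos
  refine ⟨hEfin, ?_, le_trans hN ?_⟩
  · rw [← Set.ncard_pos hEfin]
    exact_mod_cast hpos
  · have h2 : {q ∈ (Q283.LQ.Box y X : Set (Fin k → HeightOneSpectrum (𝓞 F))) |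
          (∃ D, Q7.LK.Fits p y D₀ z q D) ∧ ∀ D, Q7.LK.Fits p y D₀ z q D →
            (AddGroup.FG (Q7.CF.Jp p r D F) → Q7.CF.Indep p r S D)} ⊆
        {q ∈ Ensemble p y D₀ z X | ∀ D, Fits p y D₀ z q D →
            AddGroup.FG (Jac p r D F) → Independence p r S D} := by
      rintro q ⟨hq, hd, h⟩
      refine ⟨?_, fun D hf hfg => h D (fits_iff.mp hf) hfg⟩
      rw [hE]
      exact ⟨hq, hd⟩
    exact Nat.cast_le.2 (Set.ncard_le_ncard h2 (hEfin.subset (fun q hq => hq.1)))

end Pool.Agent.Results.MP_52423f_nt.PointsOfFermatQuotients
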