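import Pool.Agent.Q283.PQ.All

/-!
# The `2`-adic closure of the rational points of quadratic twists over every number field

Let `F` be any number field and let `E : y² = (x - e 0) (x - e 1) (x - e 2)` be an elliptic curve over `F` with rational points of
order two (every such curve has an equation with `e 0 + e 1 + e 2 = 0`) and without cyclic subgroup of order `4` over `F`. Let
`E_D`, with the roots `D e j`, be its quadratic twists. Prescribe `D` up to squares in the completions at all places above the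
prime numbers `≤ y` (it is equal to `D₀` there), where `y` is large, and its signs at the real places (those of `D₀`), and let its
order be odd at `k` further primes `q_0, …, q_(k-1)`, of norms `≤ X_0, …, X_(k-1)`, and even at all other primes, for large `k`,
`X_0`, then `X_1` large in terms of `X_0`, and so on. Let `S` be a set of places of `F` above `2`, and let `N` be the sum of the
local degrees `[F_v : ℚ_2]`, `v ∈ S`.

Theorem. For at least the share `1 - 2^(1-N) - ε` of the twists of each of these families, the points of `E_D(F)` which are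
independent over `ℤ` are independent over `ℤ_2` in the product of the `E_D(F_v)`, `v ∈ S`. (So the closure in this product of
every subgroup `L` of `E_D(F)` has the `ℤ_2`-rank of `L`.)

If `S` consists of all places above `2`, then the product is `A(ℚ_2)` for the restriction of scalars `A` of `E_D` to `ℚ`, of
dimension `[F : ℚ] = N`.

Proof. A relation over `ℤ_2` gives a point `Q` of `E_D(F)` which is, up to torsion, divisible by `2` over `F_v` for all `v ∈ S`, but
not over `F`. So the class of `Q` in the Selmer group of `E_D` is not that of a torsion point, and at the places of `S` it is one of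
the four classes of the torsion points of `E_D(F_v)`, instead of the `4 · 2^[F_v : ℚ_2]` classes of all points. By the equidistribution of
the tables of the quadratic residue symbols (Chebotarev's theorem and the law of reciprocity over `F`) the mean of the number
of the elements of this strict Selmer group is `4 + 8 · 2^(-N)`. (Project PQ, `Pool/Agent/Q283/PQ`, which uses the
projects FT and FG, see MP_1a91b9_nt.JointLawAllNumberFields.)

The parts were proved together with the helpers 7, 13, 31, 38, 53, 64, 65, 68, 79, 91, 94, 96, 121, 124, 129, 130, 149, 150, 151, 153, 154, 162, 164, 176, 181, 182, 184,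
187, 190, 192, 198, 211, 214, 223, 224, 229, 238, 241, 247, 252, 259, 265, 275, 277 and 285.
-/

set_option autoImplicit false

namespace Pool.Agent.Results.MP_52423f_nt.PointsOfQuadraticTwists

open NumberField IsDedekindDomain Filter Topology WeierstrassCurve
open Pool.Agent.TH841.SH.D (Pt act)
open scoped Classical

/-- The curve `y² = (x - e 0) (x - e 1) (x - e 2)`, for `e 0 + e 1 + e 2 = 0`. -/
def curve {F : Type} [Field F] (e : Fin 3 → F) : WeierstrassCurve F :=
  ⟨0, 0, 0, e 0 * e 1 + e 0 * e 2 + e 1 * e 2, -(e 0 * e 1 * e 2)⟩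

/-- The roots `D e j` of the quadratic twist by `D`. -/
def twist {F : Type} [Field F] (D : F) (e : Fin 3 → F) : Fin 3 → F := fun j => D * e j

/-- The product of the differences of one root with the two others is not a square: the curve has no cyclic subgroup of
order `4` over `F`. -/
def NoCyclicFour {F : Type} [Field F] (e : Fin 3 → F) : Prop :=
  ∀ i j l, i ≠ j → i ≠ l → j ≠ l → ∀ s : F, (e i - e j) * (e i - e l) ≠ s ^ 2

section Ensemble

variable {F : Type} [Field F] [NumberField F]

/-- The group homomorphism from `E(F)` to `E(F_v)`. -/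
noncomputable def toCompletion (e : Fin 3 → F) (v : HeightOneSpectrum (𝓞 F)) :
    Pt (curve e) F →+ Pt (curve e) (v.adicCompletion F) :=
  act (curve e) (Algebra.ofId F (v.adicCompletion F))

/-- Points `P i` of `E(F)` which are independent over `ℤ` (no nontrivial integral combination is a torsion point) are
independent over `ℤ_2` in the product of the `E(F_v)`, `v ∈ S`: if `∑ a_i P_i = 0` with `a_i ∈ ℤ_2` for all `v ∈ S`, that is, for
all `n` some combination `∑ m_i P_i` with integers `m_i ≡ a_i` modulo `2 ^ n` is divisible by `2 ^ n` in `E(F_v)`, then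
`a = 0`. -/
def Independence (S : Set (HeightOneSpectrum (𝓞 F))) (e : Fin 3 → F) : Prop :=
  ∀ (r : ℕ) (P : Fin r → Pt (curve e) F), (∀ c : Fin r → ℤ, IsOfFinAddOrder (∑ i, c i • P i) → c = 0) →
    ∀ a : Fin r → ℤ_[2],
      (∀ v ∈ S, ∀ n : ℕ, ∃ m : Fin r → ℤ, (∀ i, (2 : ℤ_[2]) ^ n ∣ (m i : ℤ_[2]) - a i) ∧
        ∃ R : Pt (curve e) (v.adicCompletion F), ∑ i, m i • toCompletion e v (P i) = (2 ^ n : ℕ) • R) →
      a = 0

/-- The degree of the completion of `F` at `v` over `ℚ_l`, `v` above the prime number `l`. -/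
noncomputable def localDegree (v : HeightOneSpectrum (𝓞 F)) : ℕ :=
  v.asIdeal.ramificationIdx ℤ * v.asIdeal.inertiaDeg ℤ

/-- The sum of the local degrees of the places in `S`. -/
noncomputable def totalDegree (S : Set (HeightOneSpectrum (𝓞 F))) : ℕ := ∑ᶠ v : {v // v ∈ S}, localDegree v.1

/-- The order of `a` at `v`. -/
noncomputable def order (v : HeightOneSpectrum (𝓞 F)) (a : F) : ℤ := -WithZero.log (v.valuation F a)

/-- `a` is the square of a nonzero element of the completion of `F` at `v`. -/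
def SquareAt (v : HeightOneSpectrum (𝓞 F)) (a : F) : Prop :=
  a ≠ 0 ∧ ∃ s : v.adicCompletion F, (a : v.adicCompletion F) = s ^ 2

/-- `v` lies above a prime number `l ≤ y`. -/
def Small (y : ℕ) (v : HeightOneSpectrum (𝓞 F)) : Prop :=
  ∃ l : ℕ, l.Prime ∧ l ≤ y ∧ (l : 𝓞 F) ∈ v.asIdeal

/-- Among the primes not above prime numbers `≤ y` the order of `D` is odd exactly at the primes `q i`; at the primes above
prime numbers `≤ y` the number `D` is equal to `D₀` up to local squares; and at all real places `D` and `D₀` have the same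
sign. -/
structure Fits (y : ℕ) (D₀ : F) {k : ℕ} (q : Fin k → HeightOneSpectrum (𝓞 F)) (D : F) : Prop where
  ne : D ≠ 0
  unr : ∀ v : HeightOneSpectrum (𝓞 F), ¬ Small y v → (∀ i, q i ≠ v) → Even (order v D)
  ram : ∀ i, Odd (order (q i) D)
  loc : ∀ v : HeightOneSpectrum (𝓞 F), Small y v → SquareAt v (D / D₀)
  real : ∀ φ : F →+* ℝ, 0 < φ (D / D₀)

/-- The ensemble: the tuples of `k` different primes `q i`, not above prime numbers `≤ y`, of norm `≤ X i`, to which a
`D` belongs. -/
def Ensemble (y : ℕ) (D₀ : F) {k : ℕ} (X : Fin k → ℕ) : Set (Fin k → HeightOneSpectrum (𝓞 F)) :=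
  {q | (Function.Injective q ∧ ∀ i, ¬ Small y (q i) ∧ Ideal.absNorm (q i).asIdeal ≤ X i) ∧ ∃ D, Fits y D₀ q D}

end Ensemble

/-- `P X` is true for all large `X 0`, for all `X 1` which are large in terms of `X 0`, …, for all `X (k-1)` which are
large in terms of the others. -/
def Nested : (k : ℕ) → ((Fin k → ℕ) → Prop) → Prop
  | 0, P => P Fin.elim0
  | k + 1, P => Nested k fun X => ∀ᶠ x : ℕ in atTop, P (Fin.snoc (α := fun _ => ℕ) X x)

/-- The share of the subset `S` of the finite set `T`. -/
noncomputable def share {α : Type} (S T : Set α) : ℝ := (S.ncard : ℝ) / T.ncard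

section Proof

theorem nested_iff : ∀ (k : ℕ) (P : (Fin k → ℕ) → Prop), Nested k P ↔ Q283.LQ.Nest k P
  | 0, _ => Iff.rfl
  | k + 1, _ => nested_iff k _

variable {F : Type} [Field F]

theorem noFour {e : Fin 3 → F} (h : NoCyclicFour e) : Q283.FG.NoFour e := by
  have h01 := h 2 0 1 (by decide) (by decide) (by decide)
  have h02 := h 1 0 2 (by decide) (by decide) (by decide)
  have h12 := h 0 1 2 (by decide) (by decide) (by decide)
  refine ⟨?_, ?_, ?_⟩
  · rintro ⟨s, hs⟩
    refine h12 s (Eq.trans ?_ hs)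
    show _ = (e 0 - e 2) * (e 0 - e 1)
    ring
  · rintro ⟨s, hs⟩
    refine h02 s (Eq.trans ?_ hs)
    show _ = -((e 1 - e 2) * (e 0 - e 1))
    ring
  · rintro ⟨s, hs⟩
    refine h01 s (Eq.trans ?_ hs)
    show _ = (e 1 - e 2) * (e 0 - e 2)
    ring

variable [NumberField F]

theorem odd_iff (v : HeightOneSpectrum (𝓞 F)) (D : F) : Odd (order v D) ↔ Q7.LK.vl 2 v D = 1 := by
  unfold order Q7.LK.vl
  rw [← Int.cast_neg]
  constructor
  · rintro ⟨n, hn⟩
    rw [hn]
    push_cast
    have h2 : (2 : ZMod 2) = 0 := rfl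
    rw [h2, zero_mul, zero_add]
  · intro h
    by_contra hc
    rw [Int.not_odd_iff_even] at hc
    obtain ⟨n, hn⟩ := hc
    rw [hn, Int.cast_add, CharTwo.add_self_eq_zero] at h
    exact zero_ne_one h

theorem even_iff (v : HeightOneSpectrum (𝓞 F)) (D : F) : Even (order v D) ↔ Q7.LK.vl 2 v D = 0 := by
  rw [← Int.not_odd_iff_even, odd_iff]
  generalize Q7.LK.vl 2 v D = z
  revert z
  decide

theorem loc_iff (v : HeightOneSpectrum (𝓞 F)) (a : F) : SquareAt v a ↔ Q7.LK.Lpw 2 v a := by
  have : Fact (Nat.Prime 2) := ⟨Nat.prime_two⟩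
  exact (Q7.LK.t_CPL 2 F v a).symm

theorem fits_iff {y : ℕ} {D₀ : F} {k : ℕ} {q : Fin k → HeightOneSpectrum (𝓞 F)} (hq : Function.Injective q)
    (hs : ∀ i, ¬ Small y (q i)) {D : F} : Fits y D₀ q D ↔ Q283.FG.FR y D₀ q D := by
  have hsum : ∀ v : HeightOneSpectrum (𝓞 F), (∀ i, q i ≠ v) → (∑ i, if q i = v then (1 : ZMod 2) else 0) = 0 :=
    fun v hv => Finset.sum_eq_zero fun i _ => if_neg (hv i)
  have hsum1 : ∀ j, (∑ i, if q i = q j then (1 : ZMod 2) else 0) = 1 := by
    intro j
    rw [Finset.sum_eq_single j (fun i _ hij => if_neg fun h => hij (hq h)) (fun h => absurd (Finset.mem_univ _) h),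
      if_pos rfl]
  constructor
  · intro h
    refine ⟨⟨h.ne, fun v hv => ?_, fun v hv => (loc_iff v _).1 (h.loc v hv)⟩, h.real⟩
    by_cases hv' : ∀ i, q i ≠ v
    · rw [(even_iff v D).1 (h.unr v hv hv')]
      exact (hsum v hv').symm
    · push Not at hv'
      obtain ⟨j, rfl⟩ := hv'
      rw [(odd_iff _ D).1 (h.ram j)]
      exact (hsum1 j).symm
  · rintro ⟨h, hreal⟩
    refine ⟨h.ne, fun v hv hv' => ?_, fun j => ?_, fun v hv => (loc_iff v _).2 (h.loc v hv), hreal⟩
    · rw [even_iff, h.ram v hv]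
      exact hsum v hv'
    · rw [odd_iff, h.ram (q j) (hs j)]
      exact hsum1 j

theorem ens_eq (y : ℕ) (D₀ : F) {k : ℕ} (X : Fin k → ℕ) : Ensemble y D₀ X = Q283.FG.Ens y D₀ X := by
  ext q
  constructor
  · rintro ⟨hq, D, hD⟩
    exact ⟨hq, D, (fits_iff hq.1 fun i => (hq.2 i).1).1 hD⟩
  · rintro ⟨hq, D, hD⟩
    exact ⟨hq, D, (fits_iff hq.1 fun i => (hq.2 i).1).2 hD⟩

theorem degree_eq {S : Set (HeightOneSpectrum (𝓞 F))} (hS : ∀ v ∈ S, (2 : 𝓞 F) ∈ v.asIdeal) :
    totalDegree S = ∑ᶠ v : {v : HeightOneSpectrum (𝓞 F) // v ∈ S}, Q7.LK.dv 2 v.1 := by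
  unfold totalDegree
  refine finsum_congr fun v => ?_
  unfold localDegree Q7.LK.dv
  rw [if_pos (show Q7.LK.Dp 2 v.1 by
    unfold Q7.LK.Dp
    exact_mod_cast hS v.1 v.2)]

end Proof

/-- **Main result.** -/
theorem result (F : Type) [Field F] [NumberField F] (e : Fin 3 → F) (he : Function.Injective e)
    (hs : e 0 + e 1 + e 2 = 0) (h4 : NoCyclicFour e) :
    ∃ y₀ : ℕ, ∀ y, y₀ ≤ y → ∀ D₀ : F, D₀ ≠ 0 →
      ∀ S : Set (HeightOneSpectrum (𝓞 F)), (∀ v ∈ S, (2 : 𝓞 F) ∈ v.asIdeal) →
        ∀ ε : ℝ, 0 < ε → ∃ k₀ : ℕ, ∀ k, k₀ ≤ k → Nested k fun X =>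
          (Ensemble y D₀ X).Finite ∧ (Ensemble y D₀ X).Nonempty ∧
          1 - 2 / 2 ^ totalDegree S - ε ≤
            share {q ∈ Ensemble y D₀ X | ∀ D, Fits y D₀ q D → Independence S (twist D e)} (Ensemble y D₀ X) := by
  obtain ⟨y0, hy0⟩ := Q283.PQ.t_PMAIN F e ⟨he, hs⟩ (noFour h4)
  refine ⟨y0, fun y hy D₀ hD₀ S hS ε hε => ?_⟩
  obtain ⟨k0, hk0⟩ := hy0 y hy D₀ hD₀ S (fun v hv => by
    unfold Q7.LK.Dp
    exact_mod_cast hS v hv) ε hε
  refine ⟨k0, fun k hk => (nested_iff k _).mpr (Q7.LK.nest_mono k _ _ (fun X hX => ?_) (hk0 k hk))⟩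
  obtain ⟨hfin, hpos, hlaw⟩ := hX
  rw [ens_eq]
  have hne : (Q283.FG.Ens y D₀ X).Nonempty := by
    rw [← Set.ncard_pos hfin]
    exact_mod_cast hpos
  refine ⟨hfin, hne, ?_⟩
  have h2 : {q ∈ Q283.FG.Ens y D₀ X | ∀ D, Fits y D₀ q D → Independence S (twist D e)} =
      {q ∈ Q283.FG.Ens y D₀ X | ∀ D, Q283.FG.FR y D₀ q D → Q283.PQ.Indep S (Q283.FT.twi D e)} := by
    ext q
    simp only [Set.mem_ofPred_eq]
    constructor
    · rintro ⟨hq, h⟩
      exact ⟨hq, fun D hD => h D ((fits_iff hq.1.1 fun i => (hq.1.2 i).1).2 hD)⟩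
    · rintro ⟨hq, h⟩
      exact ⟨hq, fun D hD => h D ((fits_iff hq.1.1 fun i => (hq.1.2 i).1).1 hD)⟩
  rw [h2, degree_eq hS]
  unfold share
  rw [le_div_iff₀ hpos]
  exact hlaw

end Pool.Agent.Results.MP_52423f_nt.PointsOfQuadraticTwists
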