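import Pool.Agent.Q264.PC.Fld

/-!
# MP_52423f_nt — no structural obstruction for simple abelian varieties, and the rank one case

`A` is a simple abelian variety over `ℚ` of dimension `n`, `D` its endomorphism algebra (over
`ℚ`), a division algebra, `W = A(ℚ) ⊗ ℚ`, `U = Lie A`, both vector spaces over `D`, with
`dim_ℚ U = n`, and `lam : W → ℚ_p ⊗ U` the `p`-adic logarithm.
-/

open scoped Classical TensorProduct

namespace Pool.Agent.Results.MP_52423f_nt.StructuralRank

open Q264.PC

/-- every subspace of a `D`-line is spanned by independent multiples of the generator -/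
lemma line_basis {k D W : Type} [Field k] [DivisionRing D] [Algebra k D] [AddCommGroup W]
    [Module D W] [Module k W] [IsScalarTower k D W] (w : W) {m : ℕ} (L : Submodule k W)
    (hL : ∀ x ∈ L, ∃ d : D, x = d • w) (a : Module.Basis (Fin m) k L) :
    ∃ d : Fin m → D, (∀ j, (a j : W) = d j • w) ∧ LinearIndependent k d := by
  choose d hd using fun j => hL (a j) (a j).2
  refine ⟨d, hd, ?_⟩
  have h1 : LinearIndependent k (fun j => ((a j : L) : W)) :=
    a.linearIndependent.map' L.subtype L.ker_subtype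
  rw [Fintype.linearIndependent_iff] at h1 ⊢
  intro g hg
  apply h1 g
  have h2 : ∀ j, g j • ((a j : L) : W) = (g j • d j) • w := by
    intro j; rw [hd j, smul_assoc]
  rw [Finset.sum_congr rfl fun j _ => h2 j, ← Finset.sum_smul, hg, zero_smul]

section Defs

variable (p : ℕ) [Fact p.Prime]
variable (D W U : Type) [DivisionRing D] [Algebra ℚ D]
  [AddCommGroup W] [Module D W] [Module ℚ W] [IsScalarTower ℚ D W]
  [AddCommGroup U] [Module D U] [Module ℚ U] [IsScalarTower ℚ D U]

/-- (A) no structural obstruction: for every `L` of dimension `m ≤ n` some nonzero form `F` of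
degree `m` over `ℚ` in the `rn` coordinates certifies the full rank -/
def NoObstruction {r n : ℕ} (P : Module.Basis (Fin r) D W) (b : Module.Basis (Fin n) ℚ U) :
    Prop :=
  ∀ L : Submodule ℚ W, Module.finrank ℚ L ≤ n →
    ∃ F : MvPolynomial (Fin r × Fin n) ℚ, F ≠ 0 ∧ F.IsHomogeneous (Module.finrank ℚ L) ∧
      ∀ lam : W →ₗ[ℚ] ℚ_[p] ⊗[ℚ] U, IsLog D lam →
        MvPolynomial.aeval (coord P b lam) F ≠ 0 → prank lam L = Module.finrank ℚ L

/-- (B) full rank if the `rn` coordinates are algebraically independent over `ℚ` -/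
def IndependentCase {r n : ℕ} (P : Module.Basis (Fin r) D W) (b : Module.Basis (Fin n) ℚ U) :
    Prop :=
  ∀ lam : W →ₗ[ℚ] ℚ_[p] ⊗[ℚ] U, IsLog D lam → AlgebraicIndependent ℚ (coord P b lam) →
    ∀ L : Submodule ℚ W, Module.finrank ℚ L ≤ n → prank lam L = Module.finrank ℚ L

/-- full rank for every `L` inside the line `D w` -/
def FullOnLine (lam : W →ₗ[ℚ] ℚ_[p] ⊗[ℚ] U) (w : W) : Prop :=
  ∀ L : Submodule ℚ W, (∀ x ∈ L, ∃ d : D, x = d • w) → prank lam L = Module.finrank ℚ L

/-- (C) subgroups of `D w`, for the primes for which `D ⊗ ℚ_p` has no zero divisors -/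
def DomainCase : Prop :=
  (∀ x y : ℚ_[p] ⊗[ℚ] D, x * y = 0 → x = 0 ∨ y = 0) →
    ∀ lam : W →ₗ[ℚ] ℚ_[p] ⊗[ℚ] U, IsLog D lam → ∀ w : W, lam w ≠ 0 → FullOnLine p D W U lam w

/-- the conclusion of the `p`-adic analytic subgroup theorem for the vector `v`: it lies in no
proper subspace spanned by vectors with algebraic coordinates -/
def AvoidsAlgebraic (Ω : Type) [Field Ω] [Algebra ℚ Ω] [Algebra ℚ_[p] Ω]
    [IsScalarTower ℚ ℚ_[p] Ω] (v : ℚ_[p] ⊗[ℚ] U) : Prop :=
  ∀ S : Set (Ω ⊗[ℚ] U), (∀ u ∈ S, IsAlgVec ℚ u) → Submodule.span Ω S ≠ ⊤ →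
    toΩ Ω v ∉ Submodule.span Ω S

end Defs

/-- **Main theorem.** -/
theorem result (p : ℕ) [Fact p.Prime] :
    (∀ (D W U : Type) [DivisionRing D] [Algebra ℚ D] [FiniteDimensional ℚ D]
      [AddCommGroup W] [Module D W] [Module ℚ W] [IsScalarTower ℚ D W]
      [AddCommGroup U] [Module D U] [Module ℚ U] [IsScalarTower ℚ D U]
      (r n : ℕ) (P : Module.Basis (Fin r) D W) (b : Module.Basis (Fin n) ℚ U),
      NoObstruction p D W U P b ∧ IndependentCase p D W U P b ∧ DomainCase p D W U) ∧
    -- (D) subgroups of `F w`, commutative `D = F`, all primes `p`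
    (∀ (F W U : Type) [Field F] [Algebra ℚ F] [FiniteDimensional ℚ F]
      [AddCommGroup W] [Module F W] [Module ℚ W] [IsScalarTower ℚ F W]
      [AddCommGroup U] [Module F U] [Module ℚ U] [IsScalarTower ℚ F U]
      [FiniteDimensional ℚ U] [Nontrivial U]
      (Ω : Type) [Field Ω] [Algebra ℚ Ω] [Algebra ℚ_[p] Ω] [IsScalarTower ℚ ℚ_[p] Ω]
      [IsAlgClosed Ω] (lam : W →ₗ[ℚ] ℚ_[p] ⊗[ℚ] U), IsLog F lam → ∀ w : W,
      AvoidsAlgebraic p U Ω (lam w) → FullOnLine p F W U lam w) := by
  constructor
  · intro D W U _ _ _ _ _ _ _ _ _ _ _ r n P b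
    have hWD : Module.Finite D W := Module.Finite.of_basis P
    have hW : Module.Finite ℚ W := Module.Finite.trans D W
    have hU : Module.Finite ℚ U := Module.Finite.of_basis b
    have hUD : Module.Finite D U := Module.Finite.of_restrictScalars_finite ℚ D U
    have hA : NoObstruction p D W U P b := by
      intro L hL
      let a : Module.Basis (Fin (Module.finrank ℚ L)) ℚ L := Module.finBasis ℚ L
      have ha : LinearIndependent ℚ (fun j => ((a j : L) : W)) :=
        a.linearIndependent.map' L.subtype L.ker_subtype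
      obtain ⟨F, hF0, hFh, hF⟩ := poly_exists P b (fun j => ((a j : L) : W)) ha hL
      exact ⟨F, hF0, hFh, fun lam hlam hne => prank_eq lam L a (hF ℚ_[p] lam hlam hne)⟩
    refine ⟨hA, ?_, ?_⟩
    · intro lam hlam halg L hL
      obtain ⟨F, hF0, _, hF⟩ := hA L hL
      apply hF lam hlam
      intro h0
      exact hF0 ((injective_iff_map_eq_zero _).mp halg F h0)
    · intro hdom lam hlam w hw L hL
      let a : Module.Basis (Fin (Module.finrank ℚ L)) ℚ L := Module.finBasis ℚ L
      obtain ⟨d, hd1, hd2⟩ := line_basis (D := D) w L hL a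
      apply prank_eq lam L a
      simp only [hd1]
      exact indep_domain (Module.finBasis D U) hdom lam hlam w hw d hd2
  · intro F W U _ _ _ _ _ _ _ _ _ _ _ _ _ Ω _ _ _ _ _ lam hlam w hw L hL
    have hUF : Module.Finite F U := Module.Finite.of_restrictScalars_finite ℚ F U
    have hLfin : Module.Finite ℚ L := by
      have h1 : L ≤ ((Submodule.span F {w}).restrictScalars ℚ) := by
        intro x hx
        obtain ⟨f, rfl⟩ := hL x hx
        exact Submodule.smul_mem _ _ (Submodule.mem_span_singleton_self w)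
      have h2 : Module.Finite ℚ ((Submodule.span F {w}).restrictScalars ℚ) := by
        have : Module.Finite ℚ (Submodule.span F {w}) := Module.Finite.trans F _
        exact this
      exact Submodule.finiteDimensional_of_le h1
    let a : Module.Basis (Fin (Module.finrank ℚ L)) ℚ L := Module.finBasis ℚ L
    obtain ⟨d, hd1, hd2⟩ := line_basis (D := F) w L hL a
    apply prank_eq lam L a
    simp only [hd1]
    have hpos : 0 < Module.finrank F U := Module.finrank_pos
    exact indep_field hpos (Module.finBasis F U) lam hlam w hw d hd2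

end Pool.Agent.Results.MP_52423f_nt.StructuralRank
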